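import Mathlib
import Pool.Agent.Q68.CC.Exist

/-!
# MP_5351bf_an, Q1 (positive answer)

For every characteristic class `F` (containing the identity maps), every automorphism `T` of a
standard probability space (ergodic or not) and every standard probability space `(Y, 𝒞, ν)`,
`𝒜(F)(T × Id_Y) = 𝒜(F)(T) ⊗ 𝒞` modulo null sets.

Idea: for a set `D` of an `F`-factor of `T × Id_Y`, the sets `{(x, y) : (x, y i) ∈ D}` generate an
`F`-factor of `T × Id` on `X × Y^ℕ`; by the law of large numbers `x ↦ ν (D_x ∩ C)` is measurable with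
respect to it, hence with respect to `𝒜(F)(T)`, for all `C ∈ 𝒞`. This forces
`D ∈ 𝒜(F)(T) ⊗ 𝒞`.

The definitions `Aut`, `IsFactorMap`, `IsJoining`, `joinAut`, `idAut`, `IsCharacteristicClass`,
`LeModNull`, `EqModNull`, `FactorIn`, `IsLargest`, `prodId` are in `Pool.Agent.Q68.CC.Defs`.
-/

open MeasureTheory

namespace Pool.Agent.Results.MP_5351bf_an.IdentityProductFormula

open Q68.CC

/-- Positive answer to Q1, without ergodicity. The first part says that `𝒜(F)(T)` exists (it is
unique modulo null sets by the definition `IsLargest`); the second part is the product formula. -/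
theorem result (F : Aut → Prop) (hF : IsCharacteristicClass F) :
    (∀ A : Aut, ∃ 𝒜 : MeasurableSpace A.carrier, IsLargest F A 𝒜) ∧
    ∀ (A : Aut) (Y : Type) [mY : MeasurableSpace Y] [StandardBorelSpace Y] (ν : Measure Y)
      [IsProbabilityMeasure ν] (𝒜 : MeasurableSpace A.carrier)
      (ℰ : MeasurableSpace (prodId A Y ν).carrier),
      IsLargest F A 𝒜 → IsLargest F (prodId A Y ν) ℰ →
      EqModNull (prodId A Y ν).μ ℰ (𝒜.prod mY) :=
  ⟨fun A => ⟨_, charAlg_largest hF A⟩, fun A Y _ _ ν _ 𝒜 ℰ h𝒜 hℰ =>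
    product_formula hF A Y ν 𝒜 ℰ h𝒜 hℰ⟩

end Pool.Agent.Results.MP_5351bf_an.IdentityProductFormula
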